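import Pool.Agent.H486.LP.Stm
import Pool.Agent.H486.LF.Good

/-!
# LP-P13: the mass below the height `1 + R` times the width
-/

set_option autoImplicit false

open UpperHalfPlane MeasureTheory Metric ModularGroup CongruenceSubgroup
open scoped MatrixGroups ENNReal Modular Topology NNReal ComplexConjugate Real

namespace Pool.Agent.H331.LP

open Pool.Agent.H369R2 Pool.Agent.N799.DT Pool.Agent.Helper380 Pool.Agent.H486.LF
  Pool.Agent.H486.LG Pool.Agent.H486.LP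

noncomputable section

variable {Γ Δ : Subgroup SL(2, ℤ)} {R : Finset SL(2, ℤ)} {F : ℂ → ℂ} {μ : ℝ} {N : ℕ}

/-- the part of the mass at height `y` in the cusps of width at most `y` -/
lemma height_leC (hN : 0 < N) (hNΓ : Gamma N ≤ Γ) (hR : SE.Reps (Gamma N) R) (hf : SE.Inv Γ F)
    (hF : Cusp0 Γ μ F) {C : ℝ} (hC : 0 < C) {y : ℝ} (hy : 0 < y) :
    ∑ r ∈ R with C * (wd Γ r : ℝ) ≤ y, ∫ x in (-(1/2) : ℝ)..(1/2),
        ‖SE.tr F r (x + y * Complex.I)‖ ^ 2 ≤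
      (y / (2 * π * C)) ^ 2 * ∫ x in (-(1/2) : ℝ)..(1/2), SE.Dx F R (x + y * Complex.I) := by
  classical
  have hd : ContDiffOn ℝ 1 F SE.U := hF.smooth.of_le (by norm_num)
  have hfN : SE.Inv (Gamma N) F := fun γ hγ z => hf γ (hNΓ hγ) z
  have hN' : (0 : ℝ) < N := by exact_mod_cast hN
  have hπ := Real.pi_pos
  have c1 : ∀ r, Continuous fun x : ℝ => ‖SE.tr F r (x + y * Complex.I)‖ ^ 2 := fun r =>
    (SE.cont_tr_line hd r hy).norm.pow 2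
  have c2 : ∀ r, Continuous fun x : ℝ => ‖fderiv ℝ (SE.tr F r) (x + y * Complex.I) 1‖ ^ 2 :=
    fun r => (SE.cont_line hd r hy).norm.pow 2
  set R' := R.filter (fun r => C * (wd Γ r : ℝ) ≤ y) with hR'
  have cP : Continuous fun x : ℝ => ∑ r ∈ R', ‖SE.tr F r (x + y * Complex.I)‖ ^ 2 :=
    continuous_finsetSum _ fun r _ => c1 r
  have cD : Continuous fun x : ℝ => SE.Dx F R (x + y * Complex.I) := by
    unfold SE.Dx; exact continuous_finsetSum _ fun r _ => c2 r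
  have e1 : ∀ x : ℝ, ((x + 1 : ℝ) + y * Complex.I : ℂ) = (x + y * Complex.I) + 1 := by
    intro x; push_cast; ring
  -- periodicity
  have hperP : ∀ x : ℝ, ∑ r ∈ R', ‖SE.tr F r ((x + 1 : ℝ) + y * Complex.I)‖ ^ 2 =
      ∑ r ∈ R', ‖SE.tr F r (x + y * Complex.I)‖ ^ 2 := by
    intro x
    have h := SE.sum_inv hR (fun g => if C * (wd Γ g : ℝ) ≤ y then
        ‖SE.tr F g (x + y * Complex.I)‖ ^ 2 else 0) (fun γ hγ g => by
      simp only [wd_left (hNΓ hγ) g, SE.tr_inv hfN hγ g (SE.pt_mem hy x)]) ModularGroup.T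
    simp only [wd_mulT] at h
    rw [hR', Finset.sum_filter, Finset.sum_filter, ← h]
    refine Finset.sum_congr rfl fun r _ => ?_
    rw [e1, SE.tr_mul F r _ (SE.pt_mem hy x), SE.mob_T]
  have hperD : ∀ x : ℝ, SE.Dx F R ((x + 1 : ℝ) + y * Complex.I) =
      SE.Dx F R (x + y * Complex.I) := fun x => by
    rw [e1]; exact SE.Dx_T hR hfN (SE.pt_mem hy x)
  have hlhs : ∑ r ∈ R', ∫ x in (-(1/2) : ℝ)..(1/2), ‖SE.tr F r (x + y * Complex.I)‖ ^ 2 =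
      ∑ r ∈ R', (N : ℝ)⁻¹ * ∫ x in (0 : ℝ)..N, ‖SE.tr F r (x + y * Complex.I)‖ ^ 2 := by
    rw [← intervalIntegral.integral_finsetSum fun r _ => (c1 r).intervalIntegrable _ _,
      ← SE.per_int cP hperP hN,
      intervalIntegral.integral_finsetSum fun r _ => (c1 r).intervalIntegrable _ _,
      Finset.mul_sum]
  have hrhs : ∫ x in (-(1/2) : ℝ)..(1/2), SE.Dx F R (x + y * Complex.I) =
      ∑ r ∈ R, (N : ℝ)⁻¹ * ∫ x in (0 : ℝ)..N,
        ‖fderiv ℝ (SE.tr F r) (x + y * Complex.I) 1‖ ^ 2 := by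
    rw [← SE.per_int cD hperD hN]
    unfold SE.Dx
    rw [intervalIntegral.integral_finsetSum fun r _ => (c2 r).intervalIntegrable _ _,
      Finset.mul_sum]
  rw [hlhs, hrhs, Finset.mul_sum]
  have hnn : ∀ r : SL(2, ℤ), 0 ≤ (N : ℝ)⁻¹ * ∫ x in (0 : ℝ)..N,
      ‖fderiv ℝ (SE.tr F r) (x + y * Complex.I) 1‖ ^ 2 := fun r =>
    mul_nonneg (inv_nonneg.2 hN'.le)
      (intervalIntegral.integral_nonneg hN'.le fun x _ => by positivity)
  have hterm : ∀ r ∈ R', (N : ℝ)⁻¹ * ∫ x in (0 : ℝ)..N, ‖SE.tr F r (x + y * Complex.I)‖ ^ 2 ≤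
      (y / (2 * π * C)) ^ 2 * ((N : ℝ)⁻¹ * ∫ x in (0 : ℝ)..N,
        ‖fderiv ℝ (SE.tr F r) (x + y * Complex.I) 1‖ ^ 2) := by
    intro r hr
    have hry : C * (wd Γ r : ℝ) ≤ y := (Finset.mem_filter.1 hr).2
    obtain ⟨h0, hT⟩ := wd_spec hN hNΓ r
    have hdv : wd Γ r ∣ N := by
      have := wd_dvd hN hNΓ r (m := N) (by
        rw [zpow_natCast]; exact hNΓ (conj_T_mem N r))
      exact_mod_cast this
    have e2 : ∀ x : ℝ, ((x + (wd Γ r : ℝ) : ℝ) + y * Complex.I : ℂ) =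
        (x + y * Complex.I) + (wd Γ r : ℕ) := by
      intro x; push_cast; ring
    rw [avg_per (c1 r) h0 hN hdv (fun x => by rw [e2, tr_per hf hT (SE.pt_mem hy x)]),
      avg_per (c2 r) h0 hN hdv (fun x => by rw [e2, fderiv_per hf hT (SE.pt_mem hy x)])]
    refine (wirt_cusp hf hF h0 hT hy).trans ?_
    have h0' : (0 : ℝ) < wd Γ r := by exact_mod_cast h0
    have hI : 0 ≤ ((wd Γ r : ℝ))⁻¹ * ∫ x in (0 : ℝ)..(wd Γ r : ℝ),
        ‖fderiv ℝ (SE.tr F r) (x + y * Complex.I) 1‖ ^ 2 :=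
      mul_nonneg (inv_nonneg.2 h0'.le)
        (intervalIntegral.integral_nonneg h0'.le fun x _ => by positivity)
    apply mul_le_mul_of_nonneg_right _ hI
    apply pow_le_pow_left₀ (by positivity)
    rw [div_le_div_iff₀ (by positivity) (by positivity)]
    nlinarith [mul_le_mul_of_nonneg_right hry (by positivity : 0 ≤ 2 * π)]
  refine (Finset.sum_le_sum hterm).trans ?_
  exact Finset.sum_le_sum_of_subset_of_nonneg (Finset.filter_subset _ _) fun r _ _ =>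
    mul_nonneg (by positivity) (hnn r)

/-- the mass above the height of the cusp width -/
theorem bad_leC (hN : 0 < N) (hNΓ : Gamma N ≤ Γ) (hR : SE.Reps (Gamma N) R) (hf : SE.Inv Γ F)
    (hF : Cusp0 Γ μ F) (hμ : 0 ≤ μ) {C : ℝ} (hC : 1 ≤ C)
    (hM : ∫⁻ w in SE.D, ENNReal.ofReal (SE.Phi F R w / w.im ^ 2) ≠ ∞) :
    ∑ r ∈ R, ∫⁻ w in SE.Sh (C * wd Γ r), ENNReal.ofReal (‖SE.tr F r w‖ ^ 2 / w.im ^ 2) ≤
      ENNReal.ofReal (μ / (4 * π ^ 2 * C ^ 2)) *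
        ∫⁻ w in SE.D, ENNReal.ofReal (SE.Phi F R w / w.im ^ 2) := by
  classical
  have hd : ContDiffOn ℝ 1 F SE.U := hF.smooth.of_le (by norm_num)
  have hfN : SE.Inv (Gamma N) F := fun γ hγ z => hf γ (hNΓ hγ) z
  have hπ := Real.pi_pos
  have hC0 : 0 < C := by linarith
  have hcG : ∀ r, ContinuousOn (fun w : ℂ => ‖SE.tr F r w‖ ^ 2 / w.im ^ 2) SE.U := fun r =>
    (((SE.tr_contDiffOn hd r).continuousOn.norm).pow 2).div (by fun_prop) fun w hw => by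
      have : (0:ℝ) < w.im := hw
      positivity
  have hcD : ContinuousOn (SE.Dx F R) SE.U := by
    unfold SE.Dx
    refine continuousOn_finsetSum _ fun r _ => ?_
    have h1 : ContinuousOn (fun w => fderiv ℝ (SE.tr F r) w) SE.U :=
      (SE.tr_contDiffOn hd r).continuousOn_fderiv_of_isOpen SE.isOpen_U (by norm_num)
    exact (h1.clm_apply continuousOn_const).norm.pow 2
  have hwd : ∀ r, (1 : ℝ) ≤ C * wd Γ r := fun r => by
    have h1 : (1 : ℝ) ≤ wd Γ r := by exact_mod_cast (wd_spec hN hNΓ r).1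
    nlinarith
  have e1 : ∀ r, ∫⁻ w in SE.Sh (C * wd Γ r), ENNReal.ofReal (‖SE.tr F r w‖ ^ 2 / w.im ^ 2) =
      ∫⁻ y in Set.Ici (1 : ℝ), if C * (wd Γ r : ℝ) ≤ y then ∫⁻ x in Set.Icc (-(1/2) : ℝ) (1/2),
        ENNReal.ofReal (‖SE.tr F r (x + y * Complex.I)‖ ^ 2 / y ^ 2) else 0 := by
    intro r
    rw [SE.tonelli_h (hcG r) (by linarith [hwd r])]
    have h2 : ∀ x y : ℝ, (x + y * Complex.I : ℂ).im = y := fun x y => by simp
    simp only [h2]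
    have h3 : Set.Ici (C * (wd Γ r : ℝ)) ∩ Set.Ici 1 = Set.Ici (C * (wd Γ r : ℝ)) := by
      rw [Set.Ici_inter_Ici, sup_eq_left.2 (hwd r)]
    rw [← h3, ← Measure.restrict_restrict measurableSet_Ici,
      ← lintegral_indicator measurableSet_Ici]
    refine lintegral_congr fun y => ?_
    by_cases hy : C * (wd Γ r : ℝ) ≤ y
    · rw [Set.indicator_of_mem (show y ∈ Set.Ici (C * (wd Γ r : ℝ)) from hy), if_pos hy]
    · rw [Set.indicator_of_notMem (show y ∉ Set.Ici (C * (wd Γ r : ℝ)) from hy), if_neg hy]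
  simp only [e1]
  refine (sum_lint_le _ _ _).trans ?_
  have hheight : ∀ y ∈ Set.Ici (1 : ℝ), (∑ r ∈ R, if C * (wd Γ r : ℝ) ≤ y then
      ∫⁻ x in Set.Icc (-(1/2) : ℝ) (1/2),
        ENNReal.ofReal (‖SE.tr F r (x + y * Complex.I)‖ ^ 2 / y ^ 2) else 0) ≤
      ENNReal.ofReal (1 / (4 * π ^ 2 * C ^ 2)) * ∫⁻ x in Set.Icc (-(1/2) : ℝ) (1/2),
        ENNReal.ofReal (SE.Dx F R (x + y * Complex.I)) := by
    intro y hy
    have hy0 : 0 < y := lt_of_lt_of_le one_pos hy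
    have c1 : ∀ r, Continuous fun x : ℝ => ‖SE.tr F r (x + y * Complex.I)‖ ^ 2 := fun r =>
      (SE.cont_tr_line hd r hy0).norm.pow 2
    have cD : Continuous fun x : ℝ => SE.Dx F R (x + y * Complex.I) := by
      unfold SE.Dx; exact continuous_finsetSum _ fun r _ => (SE.cont_line hd r hy0).norm.pow 2
    rw [← Finset.sum_filter]
    have h2 : ∀ r, ∫⁻ x in Set.Icc (-(1/2) : ℝ) (1/2),
        ENNReal.ofReal (‖SE.tr F r (x + y * Complex.I)‖ ^ 2 / y ^ 2) =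
        ENNReal.ofReal ((∫ x in (-(1/2) : ℝ)..(1/2),
          ‖SE.tr F r (x + y * Complex.I)‖ ^ 2) / y ^ 2) := by
      intro r
      rw [SE.lint_eq ((c1 r).div_const _) (fun x => by positivity), intervalIntegral.integral_div]
    have hnn : ∀ r, 0 ≤ ∫ x in (-(1/2) : ℝ)..(1/2), ‖SE.tr F r (x + y * Complex.I)‖ ^ 2 :=
      fun r => intervalIntegral.integral_nonneg (by norm_num) fun x _ => by positivity
    simp only [h2]
    rw [← ENNReal.ofReal_sum_of_nonneg (fun r _ => div_nonneg (hnn r) (by positivity)),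
      SE.lint_eq cD (fun x => SE.Dx_nonneg _), ← ENNReal.ofReal_mul (by positivity),
      ← Finset.sum_div]
    apply ENNReal.ofReal_le_ofReal
    rw [div_le_iff₀ (by positivity)]
    refine (height_leC hN hNΓ hR hf hF hC0 hy0).trans (le_of_eq ?_)
    field_simp
    ring
  refine (setLIntegral_mono' measurableSet_Ici hheight).trans ?_
  have hI : ∫⁻ y in Set.Ici (1 : ℝ), ENNReal.ofReal (1 / (4 * π ^ 2 * C ^ 2)) *
      ∫⁻ x in Set.Icc (-(1/2) : ℝ) (1/2), ENNReal.ofReal (SE.Dx F R (x + y * Complex.I)) =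
      ENNReal.ofReal (1 / (4 * π ^ 2 * C ^ 2)) * ∫⁻ w in SE.Sh 1, ENNReal.ofReal (SE.Dx F R w) := by
    rw [lintegral_const_mul' _ _ ENNReal.ofReal_ne_top, ← SE.tonelli_h hcD one_pos]
  rw [hI]
  have h3 : ∫⁻ w in SE.Sh 1, ENNReal.ofReal (SE.Dx F R w) ≤
      ENNReal.ofReal μ * ∫⁻ w in SE.D, ENNReal.ofReal (SE.Phi F R w / w.im ^ 2) := by
    refine le_trans ?_ (SE.energy_le hR hfN hF.smooth hμ hF.eq hM)
    refine (lintegral_mono_set (SE.Sh_sub le_rfl)).trans ?_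
    exact lintegral_mono fun w => ENNReal.ofReal_le_ofReal (SE.Dx_le_Eps w)
  refine (mul_le_mul_right h3 _).trans (le_of_eq ?_)
  rw [← mul_assoc, ← ENNReal.ofReal_mul (by positivity)]
  congr 2
  ring

/-- half of the mass is below the height of the cusp width -/
theorem good_geC (hN : 0 < N) (hNΓ : Gamma N ≤ Γ) {R₀ : ℝ} (h0 : 0 ≤ R₀) {u : LW N}
    (hu1 : ‖u‖ = 1) (hinv : ∀ γ ∈ Γ, ∀ z : ℍ, (u : ℍ → ℂ) (γ • z) = (u : ℍ → ℂ) z)
    (hμ : 0 ≤ μ) (hμR : μ ≤ R₀) (hF : Cusp0 Γ μ F) (huF : ∀ z : ℍ, (u : ℍ → ℂ) z = F z) :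
    2⁻¹ ≤ ∑' g : SL(2, ℤ) ⧸ Gamma N, ∫⁻ z in 𝒟ᵒ ∩ {z : ℍ | z.im ≤ (1 + R₀) * wd Γ g.out},
      ‖(u : ℍ → ℂ) (g.out • z)‖ₑ ^ 2 := by
  obtain ⟨R, hR, hR2⟩ := exists_reps hN
  have htot : ∫⁻ z, ‖(u : ℍ → ℂ) z‖ₑ ^ 2 ∂(nu N) = 1 := by
    rw [LW.lint_sq, hu1]; simp
  have hmass := total_mass hR2 hF.smooth huF
  rw [htot] at hmass
  have hfi : SE.Inv Γ F := by
    intro γ hγ z
    rw [← huF, ← huF]
    exact hinv γ hγ z
  have hb := bad_leC hN hNΓ hR hfi hF hμ (C := 1 + R₀) (by linarith) (by rw [hmass]; simp)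
  rw [hmass, mul_one] at hb
  have hπ : 3 < π := Real.pi_gt_three
  have hb2 : ENNReal.ofReal (μ / (4 * π ^ 2 * (1 + R₀) ^ 2)) ≤ 2⁻¹ := by
    rw [show (2 : ℝ≥0∞)⁻¹ = ENNReal.ofReal (1 / 2) by
      rw [ENNReal.ofReal_div_of_pos (by norm_num)]; simp]
    apply ENNReal.ofReal_le_ofReal
    rw [div_le_iff₀ (by positivity)]
    have h9 : 9 ≤ π ^ 2 := by nlinarith
    have h10 : 1 + R₀ ≤ (1 + R₀) ^ 2 := by nlinarith
    nlinarith [mul_le_mul h9 h10 (by linarith) (by positivity)]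
  have hbad : ∑' g : SL(2, ℤ) ⧸ Gamma N, ∫⁻ z in 𝒟ᵒ \ {z : ℍ | z.im ≤ (1 + R₀) * wd Γ g.out},
      ‖(u : ℍ → ℂ) (g.out • z)‖ₑ ^ 2 ≤ 2⁻¹ := by
    refine le_trans ?_ (hb.trans hb2)
    rw [hR2 (fun r => ∫⁻ w in SE.Sh ((1 + R₀) * wd Γ r), ENNReal.ofReal (‖SE.tr F r w‖ ^ 2 / w.im ^ 2))]
    refine ENNReal.tsum_le_tsum fun g => ?_
    rw [lint_tr hF.smooth huF]
    apply lintegral_mono_set
    rintro _ ⟨z, ⟨hz1, hz2⟩, rfl⟩
    rw [Set.mem_ofPred_eq, not_le] at hz2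
    exact ⟨(fdo_subset_fd hz1).2, hz2.le⟩
  have hsum : (∑' g : SL(2, ℤ) ⧸ Gamma N, ∫⁻ z in 𝒟ᵒ ∩ {z : ℍ | z.im ≤ (1 + R₀) * wd Γ g.out},
      ‖(u : ℍ → ℂ) (g.out • z)‖ₑ ^ 2) + ∑' g : SL(2, ℤ) ⧸ Gamma N,
        ∫⁻ z in 𝒟ᵒ \ {z : ℍ | z.im ≤ (1 + R₀) * wd Γ g.out}, ‖(u : ℍ → ℂ) (g.out • z)‖ₑ ^ 2 = 1 := by
    rw [← ENNReal.tsum_add, ← htot, NU2.lint_nu]
    congr 1
    ext g
    refine lintegral_inter_add_sdiff _ _ ?_
    exact (isClosed_le continuous_im continuous_const).measurableSet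
  have hc := half_aux (a := ∑' g : SL(2, ℤ) ⧸ Gamma N, ∫⁻ z in 𝒟ᵒ \ {z : ℍ | z.im ≤ (1 + R₀) * wd Γ g.out},
      ‖(u : ℍ → ℂ) (g.out • z)‖ₑ ^ 2) (b := ∑' g : SL(2, ℤ) ⧸ Gamma N,
        ∫⁻ z in 𝒟ᵒ ∩ {z : ℍ | z.im ≤ (1 + R₀) * wd Γ g.out}, ‖(u : ℍ → ℂ) (g.out • z)‖ₑ ^ 2)
    (by rw [add_comm]; exact hsum) (by
      calc _ ≤ 2 * (2 : ℝ≥0∞)⁻¹ := by gcongr
        _ = 1 := ENNReal.mul_inv_cancel (by norm_num) (by norm_num))
  exact hc

theorem p13 : S_good := by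
  intro R hR N hN Γ hΓ u hu hinv μ hμ hμR ⟨F, hF, huF⟩
  exact good_geC hN hΓ hR hu hinv hμ hμR hF huF

end

end Pool.Agent.H331.LP
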